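import Pool.Agent.Y320.ST.Stm
import Pool.Agent.Y320.CM.Basic

/-!
# Project ST, piece CORE: limits of nearly conformal maps preserve cross ratios
-/

set_option autoImplicit false
open Filter Topology MeasureTheory Metric

namespace Pool.Agent.Y925.ST
open Pool.Agent.Y320.CM Pool.Agent.Y320.ST

/-! ### determinants -/

theorem det_eq (T : ℂ →L[ℝ] ℂ) :
    T.det = (T 1).re * (T Complex.I).im - (T Complex.I).re * (T 1).im := by
  have h := LinearMap.det_toMatrix Complex.basisOneI (T : ℂ →ₗ[ℝ] ℂ)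
  rw [ContinuousLinearMap.det, ← h, Matrix.det_fin_two]
  simp [LinearMap.toMatrix_apply]

/-- an isometry with known effect on determinants -/
def Chi (χ : ℂ ≃ₗᵢ[ℝ] ℂ) (s : ℝ) : Prop :=
  ∀ (T : ℂ →L[ℝ] ℂ) (k : ℂ),
    (((χ.toContinuousLinearEquiv : ℂ →L[ℝ] ℂ)).comp (k • T)).det = s * ‖k‖ ^ 2 * T.det

theorem nsq (k : ℂ) : ‖k‖ ^ 2 = k.re ^ 2 + k.im ^ 2 := by
  rw [← Complex.normSq_eq_norm_sq, Complex.normSq_apply]; ring

theorem chi_refl : Chi (LinearIsometryEquiv.refl ℝ ℂ) 1 := by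
  intro T k
  rw [det_eq, det_eq, nsq]
  simp only [ContinuousLinearMap.comp_apply, ContinuousLinearMap.smul_apply, smul_eq_mul,
    ContinuousLinearEquiv.coe_coe, LinearIsometryEquiv.coe_toContinuousLinearEquiv,
    LinearIsometryEquiv.coe_refl, id, Complex.mul_re, Complex.mul_im]
  ring

theorem chi_conj : Chi Complex.conjLIE (-1) := by
  intro T k
  rw [det_eq, det_eq, nsq]
  simp only [ContinuousLinearMap.comp_apply, ContinuousLinearMap.smul_apply, smul_eq_mul,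
    ContinuousLinearEquiv.coe_coe, LinearIsometryEquiv.coe_toContinuousLinearEquiv,
    Complex.conjLIE_apply, Complex.conj_re, Complex.conj_im, Complex.mul_re, Complex.mul_im]
  ring

/-! ### the planar versions -/

theorem v_near (hS : S_STB) (f : Sph → Sph) (B : Sph → Sph) (v : ℂ → ℂ)
    (hv : ∀ z, sg (v z) = B (f (sg z))) (z : ℂ) (hz : f (sg z) ≠ inf) :
    v z = pl B (pl f z) := by
  unfold pl
  rw [hS.2.1 _ hz, ← hv, hS.1]

theorem v_ev (hS : S_STB) (f : Sph → Sph) (hf : Continuous f) (B : Sph → Sph) (v : ℂ → ℂ)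
    (hv : ∀ z, sg (v z) = B (f (sg z))) (z : ℂ) (hz : f (sg z) ≠ inf) :
    v =ᶠ[𝓝 z] (pl B ∘ pl f) := by
  have hc : Continuous fun z => f (sg z) := hf.comp hS.2.2.2.1
  have h : ∀ᶠ z' in 𝓝 z, f (sg z') ≠ inf := hc.continuousAt.eventually_ne hz
  filter_upwards [h] with z' hz'
  exact v_near hS f B v hv z' hz'

theorem v_deriv (hS : S_STB) (f : Sph → Sph) (hf : Continuous f) (B : Sph → Sph) (v : ℂ → ℂ)
    (hv : ∀ z, sg (v z) = B (f (sg z)))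
    (hB : ∀ w, B (sg w) ≠ inf → ∃ k : ℂ, k ≠ 0 ∧ HasDerivAt (pl B) k w) (z : ℂ)
    (hz : f (sg z) ≠ inf) (T : ℂ →L[ℝ] ℂ) (hT : HasFDerivAt (pl f) T z) :
    ∃ k : ℂ, k ≠ 0 ∧ HasFDerivAt v (k • T) z := by
  have hw : B (sg (pl f z)) ≠ inf := by
    unfold pl
    rw [hS.2.1 _ hz, ← hv]
    exact hS.2.2.1 _
  obtain ⟨k, hk, hd⟩ := hB _ hw
  refine ⟨k, hk, ?_⟩
  have h1 := hd.comp_hasFDerivAt z hT
  exact h1.congr_of_eventuallyEq (v_ev hS f hf B v hv z hz)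

theorem near_conf (hS : S_STB) (χ : ℂ ≃ₗᵢ[ℝ] ℂ) (s : ℝ) (hχ : Chi χ s) (η ε : ℝ)
    (hN : ∀ (T : ℂ →L[ℝ] ℂ) (κ : ℝ), 0 < κ → 0 ≤ T.det →
      (∀ w, |‖T w‖ ^ 2 - κ * ‖w‖ ^ 2| ≤ ε * κ * ‖w‖ ^ 2) →
      ∃ k : ℂ, k ≠ 0 ∧ ∀ w, ‖T w - k * w‖ ≤ η * ‖k‖ * ‖w‖)
    (f : Sph → Sph) (hf : Continuous f) (B : Sph → Sph) (v : ℂ → ℂ)
    (hv : ∀ z, sg (v z) = B (f (sg z)))
    (hB : ∀ w, B (sg w) ≠ inf → ∃ k : ℂ, k ≠ 0 ∧ HasDerivAt (pl B) k w) (z : ℂ)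
    (hz : f (sg z) ≠ inf) (T : ℂ →L[ℝ] ℂ) (κ : ℝ) (hT : HasFDerivAt (pl f) T z) (hκ : 0 < κ)
    (hε : ∀ w, |‖T w‖ ^ 2 - κ * ‖w‖ ^ 2| ≤ ε * κ * ‖w‖ ^ 2) (hs : 0 ≤ s * T.det) :
    ∃ (T' : ℂ →L[ℝ] ℂ) (k : ℂ), HasFDerivAt (fun z => χ (v z)) T' z ∧
      ∀ w, ‖T' w - k * w‖ ≤ η * ‖k‖ * ‖w‖ := by
  obtain ⟨k, hk, hd⟩ := v_deriv hS f hf B v hv hB z hz T hT
  have h1 : HasFDerivAt (fun z => χ (v z))
      ((χ.toContinuousLinearEquiv : ℂ →L[ℝ] ℂ).comp (k • T)) z :=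
    (χ.toContinuousLinearEquiv : ℂ →L[ℝ] ℂ).hasFDerivAt.comp z hd
  have hk0 : 0 < ‖k‖ := norm_pos_iff.2 hk
  obtain ⟨k', -, hk'⟩ := hN ((χ.toContinuousLinearEquiv : ℂ →L[ℝ] ℂ).comp (k • T)) (‖k‖ ^ 2 * κ)
    (by positivity) (by
      rw [hχ]
      have h2 : s * ‖k‖ ^ 2 * T.det = ‖k‖ ^ 2 * (s * T.det) := by ring
      rw [h2]
      positivity) (by
      intro w
      have h2 : ‖((χ.toContinuousLinearEquiv : ℂ →L[ℝ] ℂ).comp (k • T)) w‖ = ‖k‖ * ‖T w‖ := by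
        simp
      rw [h2]
      have h3 : (‖k‖ * ‖T w‖) ^ 2 - ‖k‖ ^ 2 * κ * ‖w‖ ^ 2 =
          ‖k‖ ^ 2 * (‖T w‖ ^ 2 - κ * ‖w‖ ^ 2) := by ring
      rw [h3, abs_mul, abs_of_nonneg (by positivity : (0 : ℝ) ≤ ‖k‖ ^ 2)]
      have h4 := mul_le_mul_of_nonneg_left (hε w) (by positivity : 0 ≤ ‖k‖ ^ 2)
      calc ‖k‖ ^ 2 * |‖T w‖ ^ 2 - κ * ‖w‖ ^ 2| ≤ ‖k‖ ^ 2 * (ε * κ * ‖w‖ ^ 2) := h4
        _ = ε * (‖k‖ ^ 2 * κ) * ‖w‖ ^ 2 := by ring)
  exact ⟨_, k', h1, hk'⟩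

theorem vol_P2 (hS : S_STB) (f : Sph → Sph) (hfi : Function.Injective f) (B : Sph → Sph)
    (v : ℂ → ℂ) (hv : ∀ z, sg (v z) = B (f (sg z)))
    (R : Set ℂ) (C ρ η : ℝ) (hC : ∀ z ∈ R, ‖v z‖ ≤ C)
    (hρ : volume (pl B '' {w | ρ ≤ ‖w‖} ∩ closedBall 0 C) ≤ ENNReal.ofReal (η / 4))
    (P2 : Set ℂ) (hP2 : volume (pl B '' P2 ∩ closedBall 0 C) ≤ ENNReal.ofReal (η / 4))
    (hη : 0 < η) :
    volume (v '' {z | z ∈ R ∧ (f (sg z) = inf ∨ ρ < ‖pl f z‖ ∨ pl f z ∈ P2)}) ≤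
      ENNReal.ofReal η := by
  have hsub : v '' {z | z ∈ R ∧ (f (sg z) = inf ∨ ρ < ‖pl f z‖ ∨ pl f z ∈ P2)} ⊆
      v '' {z | f (sg z) = inf} ∪ ((pl B '' {w | ρ ≤ ‖w‖} ∩ closedBall 0 C) ∪
        (pl B '' P2 ∩ closedBall 0 C)) := by
    rintro _ ⟨z, ⟨hzR, hz⟩, rfl⟩
    by_cases h0 : f (sg z) = inf
    · exact Or.inl ⟨z, h0, rfl⟩
    · right
      have hv1 := v_near hS f B v hv z h0
      have hv2 : v z ∈ closedBall (0 : ℂ) C := by
        rw [mem_closedBall_zero_iff]; exact hC z hzR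
      rcases hz with hz | hz | hz
      · exact absurd hz h0
      · left
        exact ⟨⟨pl f z, le_of_lt hz, hv1.symm⟩, hv2⟩
      · right
        exact ⟨⟨pl f z, hz, hv1.symm⟩, hv2⟩
  have h0 : volume (v '' {z | f (sg z) = inf}) = 0 := by
    apply Set.Subsingleton.measure_zero
    apply Set.Subsingleton.image
    intro z hz z' hz'
    have h1 := hfi (Eq.trans hz (Eq.symm hz'))
    have h2 := congrArg st h1
    rwa [hS.1, hS.1] at h2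
  calc volume (v '' {z | z ∈ R ∧ (f (sg z) = inf ∨ ρ < ‖pl f z‖ ∨ pl f z ∈ P2)})
      ≤ volume (v '' {z | f (sg z) = inf} ∪ ((pl B '' {w | ρ ≤ ‖w‖} ∩ closedBall 0 C) ∪
        (pl B '' P2 ∩ closedBall 0 C))) := measure_mono hsub
    _ ≤ volume (v '' {z | f (sg z) = inf}) + (volume (pl B '' {w | ρ ≤ ‖w‖} ∩ closedBall 0 C) +
        volume (pl B '' P2 ∩ closedBall 0 C)) :=
        (measure_union_le _ _).trans (add_le_add le_rfl (measure_union_le _ _))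
    _ ≤ 0 + (ENNReal.ofReal (η / 4) + ENNReal.ofReal (η / 4)) := by
        rw [h0]
        gcongr
    _ = ENNReal.ofReal (η / 4 + η / 4) := by
        rw [zero_add, ENNReal.ofReal_add (by positivity) (by positivity)]
    _ ≤ ENNReal.ofReal η := ENNReal.ofReal_le_ofReal (by linarith)

/-! ### the boundary integral -/

theorem rectInt_close (F G : ℂ → ℂ) (hF : Continuous F) (hG : Continuous G)
    (x0 x1 y0 y1 d : ℝ) (hx : x0 ≤ x1) (hy : y0 ≤ y1)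
    (h : ∀ z ∈ Rect x0 x1 y0 y1, ‖F z - G z‖ ≤ d) :
    ‖rectInt F x0 x1 y0 y1 - rectInt G x0 x1 y0 y1‖ ≤ 2 * d * ((x1 - x0) + (y1 - y0)) := by
  have key : ∀ (p : ℝ → ℂ) (_ : Continuous p) (a b : ℝ) (_ : a ≤ b)
      (_ : ∀ t, a ≤ t → t ≤ b → p t ∈ Rect x0 x1 y0 y1),
      ‖(∫ t in a..b, F (p t)) - ∫ t in a..b, G (p t)‖ ≤ d * (b - a) := by
    intro p hp a b hab hR
    have hF' : IntervalIntegrable (fun t => F (p t)) volume a b :=
      (hF.comp hp).intervalIntegrable _ _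
    have hG' : IntervalIntegrable (fun t => G (p t)) volume a b :=
      (hG.comp hp).intervalIntegrable _ _
    rw [← intervalIntegral.integral_sub hF' hG']
    have h1 := intervalIntegral.norm_integral_le_of_norm_le_const (a := a) (b := b) (C := d)
      (f := fun t => F (p t) - G (p t)) (by
      intro t ht
      rw [Set.uIoc_of_le hab] at ht
      exact h _ (hR t ht.1.le ht.2))
    rwa [abs_of_nonneg (by linarith)] at h1
  have k1 := key (fun x => (x : ℂ) + y0 * Complex.I) (by fun_prop) x0 x1 hx (by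
    intro t h1 h2
    simp only [Rect, Set.mem_setOf_eq, Complex.add_re, Complex.add_im, Complex.mul_re,
      Complex.mul_im, Complex.ofReal_re, Complex.ofReal_im, Complex.I_re, Complex.I_im]
    refine ⟨by linarith, by linarith, by linarith, by linarith⟩)
  have k2 := key (fun x => (x : ℂ) + y1 * Complex.I) (by fun_prop) x0 x1 hx (by
    intro t h1 h2
    simp only [Rect, Set.mem_setOf_eq, Complex.add_re, Complex.add_im, Complex.mul_re,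
      Complex.mul_im, Complex.ofReal_re, Complex.ofReal_im, Complex.I_re, Complex.I_im]
    refine ⟨by linarith, by linarith, by linarith, by linarith⟩)
  have k3 := key (fun y => (x1 : ℂ) + y * Complex.I) (by fun_prop) y0 y1 hy (by
    intro t h1 h2
    simp only [Rect, Set.mem_setOf_eq, Complex.add_re, Complex.add_im, Complex.mul_re,
      Complex.mul_im, Complex.ofReal_re, Complex.ofReal_im, Complex.I_re, Complex.I_im]
    refine ⟨by linarith, by linarith, by linarith, by linarith⟩)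
  have k4 := key (fun y => (x0 : ℂ) + y * Complex.I) (by fun_prop) y0 y1 hy (by
    intro t h1 h2
    simp only [Rect, Set.mem_setOf_eq, Complex.add_re, Complex.add_im, Complex.mul_re,
      Complex.mul_im, Complex.ofReal_re, Complex.ofReal_im, Complex.I_re, Complex.I_im]
    refine ⟨by linarith, by linarith, by linarith, by linarith⟩)
  unfold rectInt
  set A1 := ∫ x in x0..x1, F (x + y0 * Complex.I)
  set A2 := ∫ x in x0..x1, F (x + y1 * Complex.I)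
  set A3 := ∫ y in y0..y1, F (x1 + y * Complex.I)
  set A4 := ∫ y in y0..y1, F (x0 + y * Complex.I)
  set B1 := ∫ x in x0..x1, G (x + y0 * Complex.I)
  set B2 := ∫ x in x0..x1, G (x + y1 * Complex.I)
  set B3 := ∫ y in y0..y1, G (x1 + y * Complex.I)
  set B4 := ∫ y in y0..y1, G (x0 + y * Complex.I)
  have e : (A1 - A2 + Complex.I * A3 - Complex.I * A4) -
      (B1 - B2 + Complex.I * B3 - Complex.I * B4) =
      ((A1 - B1) - (A2 - B2)) + (Complex.I * (A3 - B3) - Complex.I * (A4 - B4)) := by ring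
  rw [e]
  have n1 := norm_sub_le (A1 - B1) (A2 - B2)
  have n2 := norm_sub_le (Complex.I * (A3 - B3)) (Complex.I * (A4 - B4))
  have n3 : ‖Complex.I * (A3 - B3)‖ = ‖A3 - B3‖ := by rw [norm_mul, Complex.norm_I, one_mul]
  have n4 : ‖Complex.I * (A4 - B4)‖ = ‖A4 - B4‖ := by rw [norm_mul, Complex.norm_I, one_mul]
  have n5 := norm_add_le ((A1 - B1) - (A2 - B2))
    (Complex.I * (A3 - B3) - Complex.I * (A4 - B4))
  rw [n3, n4] at n2
  linarith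

/-! ### extension of similarities -/

theorem ext_sg (hS : S_STB) (u : ℂ → ℂ) (z : ℂ) : ext u (sg z) = sg (u z) := by
  unfold ext
  rw [if_neg (hS.2.2.1 z), hS.1]

theorem ext_inf (u : ℂ → ℂ) : ext u inf = inf := by
  unfold ext
  rw [if_pos rfl]

theorem sg_inj (hS : S_STB) : Function.Injective sg := by
  intro z w h
  have := congrArg st h
  rwa [hS.1, hS.1] at this

theorem ext_inj (hS : S_STB) (u : ℂ → ℂ) (hu : Function.Injective u) :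
    Function.Injective (ext u) := by
  intro p q h
  by_cases hp : p = inf
  · by_cases hq : q = inf
    · rw [hp, hq]
    · exfalso
      rw [hp, ext_inf, ← hS.2.1 q hq, ext_sg hS] at h
      exact hS.2.2.1 _ h.symm
  · by_cases hq : q = inf
    · exfalso
      rw [hq, ext_inf, ← hS.2.1 p hp, ext_sg hS] at h
      exact hS.2.2.1 _ h
    · rw [← hS.2.1 p hp, ← hS.2.1 q hq, ext_sg hS, ext_sg hS] at h
      have h1 := hu (sg_inj hS h)
      rw [← hS.2.1 p hp, ← hS.2.1 q hq, h1]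

theorem cr_s1 (a b c e : Sph) : cr a b c e = cr b a e c := by
  unfold cr
  rw [dist_comm a b, dist_comm c e, mul_comm (dist a c)]

theorem cr_s2 (a b c e : Sph) : cr a b c e = cr c e a b := by
  unfold cr
  rw [dist_comm a c, dist_comm b e, mul_comm (dist a b)]

theorem ext_cr (hS : S_STB) (u : ℂ → ℂ) (α : ℝ) (hα : 0 < α)
    (hu : ∀ z w, dist (u z) (u w) = α * dist z w) (a b c e : Sph) (hD : D4 a b c e) :
    cr (ext u a) (ext u b) (ext u c) (ext u e) = cr a b c e := by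
  have hS' := hS
  obtain ⟨h1, h2, h3, -, -, -, -, h8, h9⟩ := hS'
  have hui : Function.Injective u := by
    intro z w h
    have h4 := hu z w
    rw [h, dist_self] at h4
    have h5 : dist z w = 0 := by
      rcases mul_eq_zero.1 h4.symm with h6 | h6
      · exact absurd h6 hα.ne'
      · exact h6
    exact dist_eq_zero.1 h5
  -- last point at infinity
  have kinf : ∀ a b c : Sph, a ≠ inf → b ≠ inf → c ≠ inf → a ≠ c →
      cr (ext u a) (ext u b) (ext u c) (ext u inf) = cr a b c inf := by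
    intro a b c ha hb hc hac
    have hac' : st a ≠ st c := by
      intro h
      apply hac
      rw [← h2 a ha, ← h2 c hc, h]
    rw [← h2 a ha, ← h2 b hb, ← h2 c hc, ext_sg hS, ext_sg hS, ext_sg hS, ext_inf,
      h8 _ _ _ hac', h8 _ _ _ (fun h => hac' (hui h)), hu, hu]
    rw [mul_div_mul_left _ _ hα.ne']
  obtain ⟨d1, d2, d3, d4, d5, d6⟩ := hD
  by_cases he : e = inf
  · subst he
    exact kinf a b c d3 d5 d6 d2
  by_cases ha : a = inf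
  · subst ha
    rw [cr_s1, cr_s2, cr_s1 inf b c e, cr_s2 b inf e c]
    exact kinf e c b he (fun h => d2 h.symm) (fun h => d1 h.symm) (fun h => d5 h.symm)
  by_cases hb : b = inf
  · subst hb
    rw [cr_s2, cr_s2 a inf c e]
    exact kinf c e a (fun h => d4 h.symm) he ha (fun h => d2 h.symm)
  by_cases hc : c = inf
  · subst hc
    rw [cr_s1, cr_s1 a b inf e]
    exact kinf b a e hb ha he d5
  rw [← h2 a ha, ← h2 b hb, ← h2 c hc, ← h2 e he, ext_sg hS, ext_sg hS, ext_sg hS, ext_sg hS,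
    h9, h9, hu, hu, hu, hu]
  have e1 : α * dist (st a) (st b) * (α * dist (st c) (st e)) =
      α ^ 2 * (dist (st a) (st b) * dist (st c) (st e)) := by ring
  have e2 : α * dist (st a) (st c) * (α * dist (st b) (st e)) =
      α ^ 2 * (dist (st a) (st c) * dist (st b) (st e)) := by ring
  rw [e1, e2, mul_div_mul_left _ _ (by positivity)]

theorem cr_pos {a b c e : Sph} (h : D4 a b c e) : 0 < cr a b c e := by
  obtain ⟨h1, h2, h3, h4, h5, h6⟩ := h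
  have := dist_pos.2 h1
  have := dist_pos.2 h6
  have := dist_pos.2 h2
  have := dist_pos.2 h5
  unfold cr
  positivity

theorem cr_tendsto {X : Type} {l : Filter X} {f1 f2 f3 f4 : X → Sph} {a b c e : Sph}
    (h : D4 a b c e) (h1 : Tendsto f1 l (𝓝 a)) (h2 : Tendsto f2 l (𝓝 b)) (h3 : Tendsto f3 l (𝓝 c))
    (h4 : Tendsto f4 l (𝓝 e)) :
    Tendsto (fun x => cr (f1 x) (f2 x) (f3 x) (f4 x)) l (𝓝 (cr a b c e)) := by
  unfold cr
  refine Tendsto.div ((h1.dist h2).mul (h3.dist h4)) ((h1.dist h3).mul (h2.dist h4)) ?_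
  have := dist_pos.2 h.2.1
  have := dist_pos.2 h.2.2.2.2.1
  positivity

/-! ### the boundary integrals of the limit vanish -/

theorem rect_norm (x0 x1 y0 y1 : ℝ) (z : ℂ) (hz : z ∈ Rect x0 x1 y0 y1) :
    ‖z‖ ≤ |x0| + |x1| + |y0| + |y1| := by
  obtain ⟨h1, h2, h3, h4⟩ := hz
  have h5 := Complex.norm_le_abs_re_add_abs_im z
  have h6 : |z.re| ≤ |x0| + |x1| := by
    rw [abs_le]
    have a1 := neg_abs_le x0
    have a2 := le_abs_self x1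
    have a3 := abs_nonneg x0
    have a4 := abs_nonneg x1
    exact ⟨by linarith, by linarith⟩
  have h7 : |z.im| ≤ |y0| + |y1| := by
    rw [abs_le]
    have a1 := neg_abs_le y0
    have a2 := le_abs_self y1
    have a3 := abs_nonneg y0
    have a4 := abs_nonneg y1
    exact ⟨by linarith, by linarith⟩
  linarith

theorem vol_chi (χ : ℂ ≃ₗᵢ[ℝ] ℂ) (E : Set ℂ) : volume (χ '' E) = volume E := by
  have h := (LinearIsometryEquiv.measurePreserving χ.symm)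
  have h2 : χ '' E = χ.symm ⁻¹' E := by
    ext z
    constructor
    · rintro ⟨y, hy, rfl⟩
      simpa using hy
    · intro hz
      exact ⟨χ.symm z, hz, by simp⟩
  rw [h2]
  exact h.measure_preimage_emb χ.symm.toHomeomorph.measurableEmbedding E

/-- the estimate for one map -/
theorem one_map (hS : S_STB) (H A V δ η ε ρ C : ℝ) (hη : 0 < η)
    (hMor : ∀ u : ℂ ≃ₜ ℂ, WQS H u →
      ∀ x0 x1 y0 y1 : ℝ, x0 < x1 → y0 < y1 → (x1 - x0) * (y1 - y0) ≤ A →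
      volume (u '' Rect x0 x1 y0 y1) ≤ ENNReal.ofReal V →
      ∀ P1 P2 : Set ℂ, volume P1 ≤ ENNReal.ofReal η → volume (u '' P2) ≤ ENNReal.ofReal η →
      (∀ z ∈ Rect x0 x1 y0 y1, z ∉ P1 → z ∉ P2 → ∃ (T : ℂ →L[ℝ] ℂ) (k : ℂ),
        HasFDerivAt u T z ∧ ∀ w, ‖T w - k * w‖ ≤ η * ‖k‖ * ‖w‖) →
      ‖rectInt u x0 x1 y0 y1‖ ≤ δ)
    (hN : ∀ (T : ℂ →L[ℝ] ℂ) (κ : ℝ), 0 < κ → 0 ≤ T.det →
      (∀ w, |‖T w‖ ^ 2 - κ * ‖w‖ ^ 2| ≤ ε * κ * ‖w‖ ^ 2) →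
      ∃ k : ℂ, k ≠ 0 ∧ ∀ w, ‖T w - k * w‖ ≤ η * ‖k‖ * ‖w‖)
    (χ : ℂ ≃ₗᵢ[ℝ] ℂ) (s : ℝ) (hχ : Chi χ s)
    (f : Sph → Sph) (hf : Continuous f) (hfi : Function.Injective f) (B : Sph → Sph)
    (hB : ∀ w, B (sg w) ≠ inf → ∃ k : ℂ, k ≠ 0 ∧ HasDerivAt (pl B) k w)
    (v : ℂ ≃ₜ ℂ) (hv : ∀ z, sg (v z) = B (f (sg z))) (hW : WQS H v)
    (x0 x1 y0 y1 : ℝ) (hx : x0 < x1) (hy : y0 < y1) (hA : (x1 - x0) * (y1 - y0) ≤ A)
    (hC : ∀ z ∈ Rect x0 x1 y0 y1, ‖v z‖ ≤ C)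
    (hV : volume (closedBall (0 : ℂ) C) ≤ ENNReal.ofReal V)
    (hRρ : ∀ z ∈ Rect x0 x1 y0 y1, ‖z‖ ≤ ρ)
    (hρ : volume (pl B '' {w | ρ ≤ ‖w‖} ∩ closedBall 0 C) ≤ ENNReal.ofReal (η / 4))
    (P1 P2 : Set ℂ) (hP1 : volume P1 ≤ ENNReal.ofReal η)
    (hP2 : volume (pl B '' P2 ∩ closedBall 0 C) ≤ ENNReal.ofReal (η / 4))
    (hd : ∀ z : ℂ, ‖z‖ ≤ ρ → z ∉ P1 → f (sg z) ≠ inf → ‖pl f z‖ ≤ ρ → pl f z ∉ P2 →
      ∃ (T : ℂ →L[ℝ] ℂ) (κ : ℝ), HasFDerivAt (pl f) T z ∧ 0 < κ ∧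
        ∀ w, |‖T w‖ ^ 2 - κ * ‖w‖ ^ 2| ≤ ε * κ * ‖w‖ ^ 2)
    (hs : ∀ᵐ z : ℂ, 0 ≤ s * (fderiv ℝ (pl f) z).det) :
    ‖rectInt (fun z => χ (v z)) x0 x1 y0 y1‖ ≤ δ := by
  have hwf : (fun z => χ (v z)) = (v.trans χ.toHomeomorph : ℂ ≃ₜ ℂ) := rfl
  have hww : ∀ z, (v.trans χ.toHomeomorph : ℂ ≃ₜ ℂ) z = χ (v z) := fun z => rfl
  have hWw : WQS H (v.trans χ.toHomeomorph) := by
    intro a b c h
    rw [hww, hww, hww, χ.dist_map, χ.dist_map]
    exact hW a b c h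
  rw [hwf]
  refine hMor (v.trans χ.toHomeomorph) hWw x0 x1 y0 y1 hx hy hA ?_
    (P1 ∪ {z | ¬ 0 ≤ s * (fderiv ℝ (pl f) z).det})
    {z | z ∈ Rect x0 x1 y0 y1 ∧ (f (sg z) = inf ∨ ρ < ‖pl f z‖ ∨ pl f z ∈ P2)} ?_ ?_ ?_
  · refine le_trans (measure_mono ?_) hV
    rintro _ ⟨z, hz, rfl⟩
    rw [mem_closedBall_zero_iff, hww, χ.norm_map]
    exact hC z hz
  · refine (measure_union_le _ _).trans ?_
    have h0 : volume {z | ¬ 0 ≤ s * (fderiv ℝ (pl f) z).det} = 0 := hs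
    rw [h0, add_zero]
    exact hP1
  · have h1 : (v.trans χ.toHomeomorph : ℂ ≃ₜ ℂ) ''
        {z | z ∈ Rect x0 x1 y0 y1 ∧ (f (sg z) = inf ∨ ρ < ‖pl f z‖ ∨ pl f z ∈ P2)} =
        χ '' (v '' {z | z ∈ Rect x0 x1 y0 y1 ∧
          (f (sg z) = inf ∨ ρ < ‖pl f z‖ ∨ pl f z ∈ P2)}) := by
      rw [Set.image_image]
      rfl
    rw [h1, vol_chi]
    exact vol_P2 hS f hfi B v hv _ C ρ η hC hρ P2 hP2 hη
  · intro z hz h1 h2
    have a1 : f (sg z) ≠ inf := fun h => h2 ⟨hz, Or.inl h⟩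
    have a2 : ‖pl f z‖ ≤ ρ := not_lt.1 fun h => h2 ⟨hz, Or.inr (Or.inl h)⟩
    have a3 : pl f z ∉ P2 := fun h => h2 ⟨hz, Or.inr (Or.inr h)⟩
    have a4 : z ∉ P1 := fun h => h1 (Or.inl h)
    have a5 : 0 ≤ s * (fderiv ℝ (pl f) z).det := by
      by_contra h
      exact h1 (Or.inr h)
    obtain ⟨T, κ, hT, hκ, hε⟩ := hd z (hRρ z hz) a4 a1 a2 a3
    rw [hT.fderiv] at a5
    exact near_conf hS χ s hχ η ε hN f hf B v hv hB z a1 T κ hT hκ hε a5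

theorem core_rect (hS : S_STB) (hRR : S_ROTR) (hM : S_MOR) (hNC : S_NEARC)
    (H : ℝ) (𝓤 : Ultrafilter ℕ) (f : ℕ → Sph → Sph)
    (hf : ∀ n, Continuous (f n)) (hfi : ∀ n, Function.Injective (f n)) (hfN : NC 𝓤 f)
    (B : ℕ → Sph → Sph) (hBi : ∀ n x y, dist (B n x) (B n y) = dist x y)
    (hB : ∀ n w, B n (sg w) ≠ inf → ∃ k : ℂ, k ≠ 0 ∧ HasDerivAt (pl (B n)) k w)
    (hBv : ∀ n (E : Set ℂ) (C : ℝ), 0 ≤ C →
      volume (pl (B n) '' E ∩ closedBall 0 C) ≤ ENNReal.ofReal ((1 + C ^ 2) ^ 2) * volume E)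
    (χ : ℂ ≃ₗᵢ[ℝ] ℂ) (s : ℝ) (hχ : Chi χ s)
    (hs : ∀ᶠ n in (𝓤 : Filter ℕ), ∀ᵐ z : ℂ, 0 ≤ s * (fderiv ℝ (pl (f n)) z).det)
    (v : ℕ → ℂ ≃ₜ ℂ) (u : ℂ ≃ₜ ℂ) (hv : ∀ n z, sg (v n z) = B n (f n (sg z)))
    (hW : ∀ n, WQS H (v n))
    (hu : ∀ R ε : ℝ, 0 < ε → ∀ᶠ n in (𝓤 : Filter ℕ), ∀ z, ‖z‖ ≤ R → dist (v n z) (u z) ≤ ε)
    (x0 x1 y0 y1 : ℝ) (hx : x0 < x1) (hy : y0 < y1) :
    rectInt (fun z => χ (u z)) x0 x1 y0 y1 = 0 := by
  rw [← norm_eq_zero]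
  refine le_antisymm (le_of_forall_pos_le_add fun δ hδ => ?_) (norm_nonneg _)
  rw [zero_add]
  obtain ⟨R0, hR0, hR0n⟩ : ∃ R0 : ℝ, R0 = |x0| + |x1| + |y0| + |y1| ∧ 0 ≤ R0 :=
    ⟨_, rfl, by positivity⟩
  obtain ⟨C0, hC0⟩ : ∃ C0, ∀ z : ℂ, ‖z‖ ≤ R0 → ‖u z‖ ≤ C0 := by
    have hc := (isCompact_closedBall (0 : ℂ) R0).image u.continuous
    obtain ⟨C0, h⟩ := hc.isBounded.exists_norm_le
    exact ⟨C0, fun z hz => h _ ⟨z, by simpa using hz, rfl⟩⟩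
  obtain ⟨C, hC, hC1⟩ : ∃ C : ℝ, 0 ≤ C ∧ C0 + 1 ≤ C :=
    ⟨|C0| + 1, by positivity, by have := le_abs_self C0; linarith⟩
  obtain ⟨V, hV⟩ : ∃ V : ℝ, volume (closedBall (0 : ℂ) C) ≤ ENNReal.ofReal V := by
    refine ⟨(volume (closedBall (0 : ℂ) C)).toReal, ?_⟩
    rw [ENNReal.ofReal_toReal]
    exact (isCompact_closedBall (0 : ℂ) C).measure_lt_top.ne
  obtain ⟨L, hLe, hL⟩ : ∃ L : ℝ, L = (x1 - x0) + (y1 - y0) ∧ 0 < L := ⟨_, rfl, by linarith⟩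
  obtain ⟨η, hη, hMor⟩ := hM H ((x1 - x0) * (y1 - y0)) V (δ / 2) (by positivity)
  obtain ⟨ε0, hε0, hN⟩ := hNC η hη
  obtain ⟨ρ1, hρ1, hρ1'⟩ := hRR C (η / 4) (by positivity)
  obtain ⟨ρ, hρ, hρρ1, hρR0⟩ : ∃ ρ : ℝ, 0 < ρ ∧ ρ1 ≤ ρ ∧ R0 ≤ ρ :=
    ⟨max ρ1 R0, lt_max_of_lt_left hρ1, le_max_left _ _, le_max_right _ _⟩
  obtain ⟨ε, hε, he1, he2, he3⟩ : ∃ ε : ℝ, 0 < ε ∧ ε ≤ ε0 ∧ ε ≤ η ∧
      ε ≤ (η / 4) / (1 + C ^ 2) ^ 2 := by
    refine ⟨min ε0 (min η ((η / 4) / (1 + C ^ 2) ^ 2)), ?_, min_le_left _ _,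
      (min_le_right _ _).trans (min_le_left _ _), (min_le_right _ _).trans (min_le_right _ _)⟩
    exact lt_min hε0 (lt_min hη (by positivity))
  have e1 := hfN ρ ε hρ hε
  have e2 := hu R0 (min 1 (δ / (4 * L))) (lt_min one_pos (by positivity))
  obtain ⟨n, hn1, hn2, hn3⟩ := (e1.and (e2.and hs)).exists
  obtain ⟨P1, P2, hP1, hP2, hd⟩ := hn1
  have hrn : ∀ z ∈ Rect x0 x1 y0 y1, ‖z‖ ≤ R0 := by
    intro z hz
    rw [hR0]
    exact rect_norm x0 x1 y0 y1 z hz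
  have hvC : ∀ z ∈ Rect x0 x1 y0 y1, ‖v n z‖ ≤ C := by
    intro z hz
    have h1 := (hn2 z (hrn z hz)).trans (min_le_left _ _)
    have h2 := hC0 z (hrn z hz)
    have h3 : ‖v n z‖ ≤ ‖v n z - u z‖ + ‖u z‖ := by
      have := norm_add_le (v n z - u z) (u z)
      rwa [sub_add_cancel] at this
    rw [dist_eq_norm] at h1
    linarith
  have hρ' : volume (pl (B n) '' {w | ρ ≤ ‖w‖} ∩ closedBall 0 C) ≤ ENNReal.ofReal (η / 4) := by
    refine le_trans (measure_mono ?_) (hρ1' (B n) (hBi n))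
    apply Set.inter_subset_inter_left
    apply Set.image_mono
    intro w hw
    exact hρρ1.trans hw
  have hP2' : volume (pl (B n) '' P2 ∩ closedBall 0 C) ≤ ENNReal.ofReal (η / 4) := by
    refine (hBv n P2 C hC).trans ?_
    calc ENNReal.ofReal ((1 + C ^ 2) ^ 2) * volume P2
        ≤ ENNReal.ofReal ((1 + C ^ 2) ^ 2) * ENNReal.ofReal ε := by gcongr
      _ = ENNReal.ofReal ((1 + C ^ 2) ^ 2 * ε) := by
          rw [ENNReal.ofReal_mul (by positivity)]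
      _ ≤ ENNReal.ofReal (η / 4) := by
          apply ENNReal.ofReal_le_ofReal
          have h1 := mul_le_mul_of_nonneg_left he3 (by positivity : 0 ≤ (1 + C ^ 2) ^ 2)
          refine h1.trans (le_of_eq ?_)
          field_simp
  have m1 : ‖rectInt (fun z => χ (v n z)) x0 x1 y0 y1‖ ≤ δ / 2 := by
    refine one_map hS H _ V (δ / 2) η ε0 ρ C hη hMor hN χ s hχ (f n) (hf n) (hfi n) (B n) (hB n)
      (v n) (hv n) (hW n) x0 x1 y0 y1 hx hy le_rfl hvC hV (fun z hz => (hrn z hz).trans hρR0)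
      hρ' P1 P2 (hP1.trans (ENNReal.ofReal_le_ofReal he2)) hP2' ?_ hn3
    intro z h1 h2 h3 h4 h5
    obtain ⟨T, κ, hT, hκ, h6⟩ := hd z h1 h2 h3 h4 h5
    refine ⟨T, κ, hT, hκ, fun w => (h6 w).trans ?_⟩
    gcongr
  have hcu : Continuous fun z => χ (u z) := χ.continuous.comp u.continuous
  have hcv : Continuous fun z => χ (v n z) := χ.continuous.comp (v n).continuous
  have m2 := rectInt_close (fun z => χ (u z)) (fun z => χ (v n z)) hcu hcv x0 x1 y0 y1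
    (δ / (4 * L)) hx.le hy.le (by
      intro z hz
      show ‖χ (u z) - χ (v n z)‖ ≤ _
      rw [← map_sub, χ.norm_map, ← dist_eq_norm, dist_comm]
      exact (hn2 z (hrn z hz)).trans (min_le_right _ _))
  have m3 : 2 * (δ / (4 * L)) * ((x1 - x0) + (y1 - y0)) = δ / 2 := by
    rw [← hLe]
    field_simp
    ring
  rw [m3] at m2
  calc ‖rectInt (fun z => χ (u z)) x0 x1 y0 y1‖
      = ‖(rectInt (fun z => χ (u z)) x0 x1 y0 y1 - rectInt (fun z => χ (v n z)) x0 x1 y0 y1) +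
        rectInt (fun z => χ (v n z)) x0 x1 y0 y1‖ := by rw [sub_add_cancel]
    _ ≤ ‖rectInt (fun z => χ (u z)) x0 x1 y0 y1 - rectInt (fun z => χ (v n z)) x0 x1 y0 y1‖ +
        ‖rectInt (fun z => χ (v n z)) x0 x1 y0 y1‖ := norm_add_le _ _
    _ ≤ δ / 2 + δ / 2 := add_le_add m2 m1
    _ = δ := by ring

theorem main (hS : S_STB) (hR : S_ROT) (hRR : S_ROTR) (hL : S_LIMIT) (hM : S_MOR)
    (hMo : S_MORERA) (hA : S_AFF) (hNC : S_NEARC) : S_CORE := by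
  intro N hN c hc 𝓤 f hf hfN hsg a b e h hD
  choose B hBi hBq hBd hBd' hBv using fun n => hR (f n inf)
  have hcrB : ∀ n (p q r t : Sph), cr (B n p) (B n q) (B n r) (B n t) = cr p q r t := by
    intro n p q r t
    simp only [cr, hBi]
  obtain ⟨v, u, hv, hWv, hWu, hu, hZ⟩ := hL N hN c hc 𝓤 (fun n p => B n (f n p)) (by
    intro n
    obtain ⟨h1, h2, h3, h4⟩ := hf n
    refine ⟨(B n).continuous.comp h1, (B n).bijective.comp h2, ?_, hBq n, ?_⟩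
    · intro p q r t hpq T hT
      show cr (B n (f n p)) (B n (f n q)) (B n (f n r)) (B n (f n t)) ≤ N T
      rw [hcrB]
      exact h3 p q r t hpq T hT
    · obtain ⟨p, q, r, k1, k2, k3, k4, k5, k6⟩ := h4
      refine ⟨p, q, r, k1, k2, k3, ?_, ?_, ?_⟩
      · show c ≤ dist (B n (f n p)) (B n (f n q))
        rwa [hBi]
      · show c ≤ dist (B n (f n p)) (B n (f n r))
        rwa [hBi]
      · show c ≤ dist (B n (f n q)) (B n (f n r))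
        rwa [hBi])
  have hsgn : ∃ (χ : ℂ ≃ₗᵢ[ℝ] ℂ) (s : ℝ), Chi χ s ∧
      ∀ᶠ n in (𝓤 : Filter ℕ), ∀ᵐ z : ℂ, 0 ≤ s * (fderiv ℝ (pl (f n)) z).det := by
    have h1 : ∀ᶠ n in (𝓤 : Filter ℕ), (∀ᵐ z : ℂ, 0 ≤ (fderiv ℝ (pl (f n)) z).det) ∨
        (∀ᵐ z : ℂ, (fderiv ℝ (pl (f n)) z).det ≤ 0) := Eventually.of_forall hsg
    rcases Ultrafilter.eventually_or.1 h1 with h2 | h2
    · refine ⟨_, 1, chi_refl, ?_⟩
      filter_upwards [h2] with n hn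
      filter_upwards [hn] with z hz
      linarith
    · refine ⟨_, -1, chi_conj, ?_⟩
      filter_upwards [h2] with n hn
      filter_upwards [hn] with z hz
      linarith
  obtain ⟨χ, s, hχ, hs⟩ := hsgn
  have hrect := core_rect hS hRR hM hNC (max 1 (N 3)) 𝓤 f (fun n => (hf n).1)
    (fun n => (hf n).2.1.injective) hfN (fun n => B n) hBi hBd hBv χ s hχ hs v u hv hWv hu
  have hcu : Continuous fun z => χ (u z) := χ.continuous.comp u.continuous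
  have hdiff := hMo (fun z => χ (u z)) hcu hrect
  obtain ⟨α, β, hα, hab⟩ := hA (max 1 (N 3)) (u.trans χ.toHomeomorph) (by
    intro p q r hpq
    show dist (χ (u p)) (χ (u q)) ≤ _ * dist (χ (u p)) (χ (u r))
    rw [χ.dist_map, χ.dist_map]
    exact hWu p q r hpq) hdiff
  have hab' : ∀ z, χ (u z) = α * z + β := hab
  have hdist : ∀ z w, dist (u z) (u w) = ‖α‖ * dist z w := by
    intro z w
    rw [← χ.dist_map (u z) (u w), hab', hab', dist_eq_norm, dist_eq_norm, ← norm_mul]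
    congr 1
    ring
  obtain ⟨a0, ha0⟩ := exists_lim 𝓤 a
  obtain ⟨b0, hb0⟩ := exists_lim 𝓤 b
  obtain ⟨e0, he0⟩ := exists_lim 𝓤 e
  obtain ⟨h0, hh0⟩ := exists_lim 𝓤 h
  have hlim : ∀ (p q : ℕ → Sph) (p0 q0 : Sph), Tendsto p (𝓤 : Filter ℕ) (𝓝 p0) →
      Tendsto q (𝓤 : Filter ℕ) (𝓝 q0) → (∀ n, c ≤ dist (p n) (q n)) → p0 ≠ q0 := by
    intro p q p0 q0 hp hq hpq hh
    have h1 := ge_of_tendsto' (hp.dist hq) hpq
    rw [hh, dist_self] at h1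
    linarith
  have hD0 : D4 a0 b0 e0 h0 :=
    ⟨hlim a b a0 b0 ha0 hb0 fun n => (hD n).1, hlim a e a0 e0 ha0 he0 fun n => (hD n).2.1,
      hlim a h a0 h0 ha0 hh0 fun n => (hD n).2.2.1,
      hlim b e b0 e0 hb0 he0 fun n => (hD n).2.2.2.1,
      hlim b h b0 h0 hb0 hh0 fun n => (hD n).2.2.2.2.1,
      hlim e h e0 h0 he0 hh0 fun n => (hD n).2.2.2.2.2⟩
  have hinj := ext_inj hS u u.injective
  have hD1 : D4 (ext u a0) (ext u b0) (ext u e0) (ext u h0) := by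
    obtain ⟨d1, d2, d3, d4, d5, d6⟩ := hD0
    exact ⟨fun k => d1 (hinj k), fun k => d2 (hinj k), fun k => d3 (hinj k),
      fun k => d4 (hinj k), fun k => d5 (hinj k), fun k => d6 (hinj k)⟩
  have t1 := cr_tendsto hD1 (hZ a a0 ha0) (hZ b b0 hb0) (hZ e e0 he0) (hZ h h0 hh0)
  have t2 := cr_tendsto hD0 ha0 hb0 he0 hh0
  rw [ext_cr hS u ‖α‖ (norm_pos_iff.2 hα) hdist _ _ _ _ hD0] at t1
  have t3 := t1.div t2 (cr_pos hD0).ne'
  rw [div_self (cr_pos hD0).ne'] at t3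
  refine t3.congr fun n => ?_
  simp only [hcrB, Pi.div_apply]

end Pool.Agent.Y925.ST
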